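import Mathlib
import Pool.Agent.H86.CMLib.H204R3.SP.Irr

/-!
# The classes of basis vectors attached to a Lie algebra that contains the diagonal torus
-/

set_option linter.unusedSectionVars false

namespace Pool.Agent.H204R3.GP

open Module Pool.Agent.H204R3.SP

noncomputable section

variable {Ω : Type*} [Field Ω] [CharZero Ω] {V : Type*} [AddCommGroup V] [Module Ω V]
  {R : Type*} [Fintype R] [DecidableEq R] (e : Basis R Ω V) {inv : R → R} {jj : R → Ω}
  (𝔤 : Submodule Ω (Module.End Ω V))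
  (hbr : ∀ X ∈ 𝔤, ∀ Y ∈ 𝔤, X * Y - Y * X ∈ 𝔤)
  (hD : ∀ y, DD e inv y ∈ 𝔤)
  (hinv : ∀ x, inv (inv x) = x) (hne : ∀ x, inv x ≠ x)
  (hjj : ∀ x, jj (inv x) = -jj x) (hj0 : ∀ x, jj x ≠ 0)
  (ω : V →ₗ[Ω] V →ₗ[Ω] Ω) (hω : ∀ x y, ω (e x) (e y) = JJ inv jj x y)
  (hsp : ∀ X ∈ 𝔤, ∀ u w, ω (X u) w + ω u (X w) = 0)
  {Γ : Type*} [Group Γ] (ρ : Representation Ω Γ V)
  (hconj : ∀ (s : Γ) (X : Module.End Ω V), X ∈ 𝔤 → ρ s * X * ρ s⁻¹ ∈ 𝔤)

include hD hne hconj in
/-- Subspaces stable under the Lie algebra are stable under a subgroup of finite index. -/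
theorem exists_stabilizer (U : Submodule Ω V) (hU : ∀ X ∈ 𝔤, ∀ u ∈ U, X u ∈ U) :
    ∃ Δ : Subgroup Γ, Δ.FiniteIndex ∧ ∀ s ∈ Δ, ∀ u ∈ U, ρ s u ∈ U := by
  have hmm : ∀ s t : Γ, U.map (ρ (s * t)) = (U.map (ρ t)).map (ρ s) := by
    intro s t
    rw [map_mul]
    exact Submodule.map_comp (ρ t) (ρ s) U
  have hm1 : U.map (ρ (1 : Γ)) = U := by
    rw [map_one]
    exact Submodule.map_id U
  let Δ : Subgroup Γ :=
    { carrier := {s | U.map (ρ s) = U}
      one_mem' := hm1
      mul_mem' := by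
        intro s t hs ht
        change U.map (ρ (s * t)) = U
        rw [hmm, show U.map (ρ t) = U from ht, show U.map (ρ s) = U from hs]
      inv_mem' := by
        intro s hs
        change U.map (ρ s⁻¹) = U
        conv_lhs => rw [← show U.map (ρ s) = U from hs]
        rw [← hmm, inv_mul_cancel, hm1] }
  have hΔ : Δ.FiniteIndex := by
    let g : Γ → Set R := fun s => {z | e z ∈ U.map (ρ s)}
    have hg : ∀ s t, g s = g t → U.map (ρ s) = U.map (ρ t) := by
      intro s t h
      rw [eq_span e 𝔤 hD hne (U.map (ρ s)) (map_stable 𝔤 ρ hconj U hU s),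
        eq_span e 𝔤 hD hne (U.map (ρ t)) (map_stable 𝔤 ρ hconj U hU t)]
      change Submodule.span Ω (e '' g s) = Submodule.span Ω (e '' g t)
      rw [h]
    have hinj : Function.Injective (fun q : Γ ⧸ Δ => g q.out) := by
      intro q q' h
      have h1 := hg _ _ h
      have h2 : (q.out)⁻¹ * q'.out ∈ Δ := by
        change U.map (ρ ((q.out)⁻¹ * q'.out)) = U
        rw [hmm, ← h1, ← hmm, inv_mul_cancel, hm1]
      rw [← QuotientGroup.out_eq' q, ← QuotientGroup.out_eq' q']
      exact QuotientGroup.eq.2 h2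
    have _ : Finite (Γ ⧸ Δ) := Finite.of_injective _ hinj
    exact Subgroup.finiteIndex_of_finite_quotient
  refine ⟨Δ, hΔ, fun s hs u hu => ?_⟩
  have h1 : U.map (ρ s) = U := hs
  rw [← h1]
  exact ⟨u, hu, rfl⟩

theorem mem_CC_self (x : R) : x ∈ CC e 𝔤 ω inv x := Or.inl rfl

include hω hinv hjj hj0 in
theorem coeff_ne {x z : R} (hxz : z ≠ x) :
    e.repr (SS ω (e (inv x)) (e z) (e x)) z ≠ 0 := by
  rw [SS_repr e ω hω, if_pos rfl]
  have e1 : JJ inv jj (inv x) x = jj (inv x) := by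
    unfold JJ
    rw [if_pos (hinv x).symm]
  rw [e1]
  by_cases h : inv x = z
  · rw [if_pos h, ← h, e1]
    have h2 : jj (inv x) * 1 + jj (inv x) * 1 = 2 * jj (inv x) := by ring
    rw [h2]
    exact mul_ne_zero two_ne_zero (hj0 _)
  · rw [if_neg h, mul_zero, add_zero, mul_one]
    exact hj0 _

include hbr hD hinv hne hjj hj0 hω hsp in
theorem CC_trans {x z w : R} (hz : z ∈ CC e 𝔤 ω inv x) (hw : w ∈ CC e 𝔤 ω inv z) :
    w ∈ CC e 𝔤 ω inv x := by
  rcases hw with hw | hw
  · rw [hw]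
    exact hz
  · by_cases hwz : w = z
    · rw [hwz]
      exact hz
    · exact CC_step e 𝔤 hbr hD hinv hne hjj hj0 ω hω hsp hz hw
        (coeff_ne e hinv hjj hj0 ω hω hwz)

theorem CC_inv (hinv : ∀ x, inv (inv x) = x) {x z : R} (hz : z ∈ CC e 𝔤 ω inv x) :
    inv x ∈ CC e 𝔤 ω inv (inv z) := by
  rcases hz with hz | hz
  · rw [hz]
    exact Or.inl rfl
  · refine Or.inr ?_
    rw [hinv, SS_comm]
    exact hz

/-- Every stable subspace of a subgroup of finite index has an equivariant projection. -/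
def HasProj (ρ : Representation Ω Γ V) : Prop :=
  ∀ Δ : Subgroup Γ, Δ.FiniteIndex → ∀ U : Submodule Ω V, (∀ s ∈ Δ, ∀ u ∈ U, ρ s u ∈ U) →
    ∃ P : Module.End Ω V, (∀ v, P v ∈ U) ∧ (∀ u ∈ U, P u = u) ∧
      ∀ s ∈ Δ, ∀ v, P (ρ s v) = ρ s (P v)

variable (hss : HasProj ρ)
  (hcomm : ∀ Δ : Subgroup Γ, Δ.FiniteIndex → ∀ P : Module.End Ω V,
    (∀ s ∈ Δ, ∀ v, P (ρ s v) = ρ s (P v)) → ∀ X ∈ 𝔤, ∀ v, X (P v) = P (X v))

include hD hne in
/-- An endomorphism that commutes with the diagonal elements is diagonal. -/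
theorem diag_of_comm {P : Module.End Ω V} (hP : ∀ X ∈ 𝔤, ∀ v, X (P v) = P (X v)) (x b : R)
    (hb : e.repr (P (e x)) b ≠ 0) : b = x := by
  have h1 := hP _ (hD x) (e x)
  rw [DD_basis, dd_self hne, one_smul] at h1
  have h2 := DD_repr e inv x (P (e x)) b
  rw [h1] at h2
  have h3 : (dd inv x b : Ω) = 1 := by
    have h4 : ((dd inv x b : Ω) - 1) * e.repr (P (e x)) b = 0 := by
      rw [sub_mul, one_mul, ← h2, sub_self]
    have h5 := (mul_eq_zero.1 h4).resolve_right hb
    exact sub_eq_zero.1 h5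
  by_contra h6
  by_cases h7 : b = inv x
  · rw [h7, dd_inv hne] at h3
    have h8 : (2 : Ω) = 0 := by linear_combination -h3
    exact two_ne_zero h8
  · rw [dd_other h6 h7] at h3
    exact zero_ne_one h3

include hbr hD hinv hne hjj hj0 hω hsp hconj hss hcomm in
theorem CC_symm {x z : R} (hz : z ∈ CC e 𝔤 ω inv x) : x ∈ CC e 𝔤 ω inv z := by
  by_contra hx
  have hzx : z ≠ x := by
    rintro rfl
    exact hx (Or.inl rfl)
  have hz' : SS ω (e (inv x)) (e z) ∈ 𝔤 := hz.resolve_left hzx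
  have hU := UU_stable e 𝔤 hbr hD hinv hne hjj hj0 ω hω hsp z
  obtain ⟨Δ, hΔ, hΔU⟩ := exists_stabilizer e 𝔤 hD hne ρ hconj
    (Submodule.span Ω (e '' CC e 𝔤 ω inv z)) hU
  obtain ⟨P, hP1, hP2, hP3⟩ := hss Δ hΔ _ hΔU
  have hP := hcomm Δ hΔ P hP3
  have hPx : P (e x) = 0 := by
    rw [← LinearEquiv.map_eq_zero_iff e.repr]
    ext b
    rw [Finsupp.zero_apply]
    by_contra hb
    have hbx := diag_of_comm e 𝔤 hD hne hP x b hb
    have h1 := hP1 (e x)
    rw [e.mem_span_image] at h1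
    have h2 : b ∈ CC e 𝔤 ω inv z := h1 (by
      rw [Finset.mem_coe, Finsupp.mem_support_iff]
      exact hb)
    rw [hbx] at h2
    exact hx h2
  have hPz : P (e z) = e z := hP2 _ (Submodule.subset_span ⟨z, Or.inl rfl, rfl⟩)
  have h1 := hP _ hz' (e x)
  rw [hPx, map_zero] at h1
  have h2 := coeff_ne e hinv hjj hj0 ω hω hzx
  have h3 : e.repr (P (SS ω (e (inv x)) (e z) (e x))) z =
      e.repr (SS ω (e (inv x)) (e z) (e x)) z := by
    conv_lhs => rw [← e.sum_repr (SS ω (e (inv x)) (e z) (e x))]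
    rw [map_sum, map_sum, Finsupp.finsetSum_apply, Finset.sum_eq_single z]
    · rw [map_smul, hPz, map_smul, Finsupp.smul_apply, e.repr_self, Finsupp.single_eq_same,
        smul_eq_mul, mul_one]
    · intro a _ haz
      rw [map_smul, map_smul, Finsupp.smul_apply, smul_eq_mul]
      have h4 : e.repr (P (e a)) z = 0 := by
        by_contra h5
        exact haz (diag_of_comm e 𝔤 hD hne hP a z h5).symm
      rw [h4, mul_zero]
    · intro h
      exact absurd (Finset.mem_univ _) h
  rw [← h1, map_zero, Finsupp.zero_apply] at h3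
  exact h2 h3.symm

include hbr hD hinv hne hjj hj0 hω hsp in
/-- The generators of the Lie algebra. -/
theorem SS_mem' {a b : R} (hab : b ∈ CC e 𝔤 ω inv (inv a)) : SS ω (e a) (e b) ∈ 𝔤 := by
  by_cases hb : b = inv a
  · subst hb
    have h1 : SS ω (e a) (e (inv a)) = (-jj a) • DD e inv a := by
      refine e.ext fun c => e.repr.injective (Finsupp.ext fun d => ?_)
      rw [LinearMap.smul_apply, map_smul, Finsupp.smul_apply, SS_repr e ω hω, DD_repr, e.repr_self,
        Finsupp.single_apply, smul_eq_mul]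
      unfold JJ
      rw [hinv]
      by_cases hc : c = a
      · subst hc
        rw [if_neg (fun h => hne c h.symm), if_pos rfl, hjj]
        by_cases hd : c = d
        · subst hd
          rw [if_neg (hne c), if_pos rfl, dd_self hne]
          ring
        · rw [if_neg hd]
          ring
      · rw [if_neg hc]
        by_cases hc2 : c = inv a
        · subst hc2
          rw [if_pos rfl]
          by_cases hd : inv a = d
          · subst hd
            rw [if_pos rfl, dd_inv hne]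
            ring
          · rw [if_neg hd]
            ring
        · rw [if_neg hc2]
          by_cases hd : c = d
          · subst hd
            rw [dd_other hc hc2]
            ring
          · rw [if_neg hd]
            ring
    rw [h1]
    exact Submodule.smul_mem _ _ (hD a)
  · rcases hab with h3 | h3
    · exact absurd h3 hb
    · rwa [hinv] at h3

end

end Pool.Agent.H204R3.GP
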