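import Mathlib
import Pool.Agent.H86.CMLib.H204R3.SP.FFT
import Pool.Agent.H86.CMLib.H204R3.GP.Anti

/-!
# The first fundamental theorem for products of symplectic and general linear groups
-/

set_option linter.unusedSectionVars false

namespace Pool.Agent.H204R3.GP

open Equiv Pool.Agent.H204R3.SP

noncomputable section

variable {R : Type*} [Fintype R] [DecidableEq R] {Ω : Type*} [Field Ω]
  {Q : Type*} [DecidableEq Q] (cls : R → Q) (inv : R → R) (jj : R → Ω)

variable (κ : Type*) [Fintype κ] [DecidableEq κ]

/-- The coefficient functions of type `t` killed by the Lie algebra attached to the classes. -/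
def InvG (t : κ → Q) : Submodule Ω ((κ → R) → Ω) where
  carrier := {F | (∀ (b c : R), cls (inv b) = cls c → ∀ (I : κ → R),
    ∑ k, (JJ inv jj b (I k) * F (Function.update I k c) +
    JJ inv jj c (I k) * F (Function.update I k b)) = 0) ∧ ∀ I, F I ≠ 0 → ∀ k, cls (I k) = t k}
  zero_mem' := by
    refine ⟨fun b c _ I => ?_, fun I h => absurd rfl h⟩
    simp
  add_mem' := by
    rintro F G ⟨hF, hF'⟩ ⟨hG, hG'⟩
    refine ⟨fun b c hbc I => ?_, fun I hI => ?_⟩
    · have h1 := hF b c hbc I
      have h2 := hG b c hbc I
      have h3 := congrArg₂ (fun x y : Ω => x + y) h1 h2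
      simp only [add_zero] at h3
      rw [← h3, ← Finset.sum_add_distrib]
      refine Finset.sum_congr rfl fun k _ => ?_
      simp only [Pi.add_apply]
      ring
    · by_cases h1 : F I = 0
      · refine hG' I fun h2 => hI ?_
        rw [Pi.add_apply, h1, h2, add_zero]
      · exact hF' I h1
  smul_mem' := by
    rintro a F ⟨hF, hF'⟩
    refine ⟨fun b c hbc I => ?_, fun I hI => ?_⟩
    · have h1 := hF b c hbc I
      rw [← mul_zero a, ← h1, Finset.mul_sum]
      refine Finset.sum_congr rfl fun k _ => ?_
      simp only [Pi.smul_apply, smul_eq_mul]
      ring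
    · refine hF' I fun h2 => hI ?_
      rw [Pi.smul_apply, h2, smul_zero]

variable {κ}

/-- The product of the forms of given classes over a perfect matching. -/
def matG {m : ℕ} (e : Fin m × Fin 2 ≃ κ) (c : Fin m → Q) : (κ → R) → Ω :=
  fun I => ∏ s, (if cls (I (e (s, 0))) = c s then JJ inv jj (I (e (s, 0))) (I (e (s, 1))) else 0)

variable (κ) in
/-- The span of the products over matchings. -/
def MatG (m : ℕ) : Submodule Ω ((κ → R) → Ω) :=
  Submodule.span Ω {F | ∃ (e : Fin m × Fin 2 ≃ κ) (c : Fin m → Q), F = matG cls inv jj e c}

variable {cls inv jj} (hinv : ∀ x, inv (inv x) = x) (hjj : ∀ x, jj (inv x) = -jj x)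
  (hj0 : ∀ x, jj x ≠ 0) (hcls : ∀ x y, cls x = cls y → cls (inv x) = cls (inv y))

include hinv hjj hj0 in
theorem contr_memG {t : κ → Q} {p k : κ} (hpk : p ≠ k) (F : (κ → R) → Ω)
    (hF : F ∈ InvG cls inv jj κ t) :
    contr inv jj p k F ∈ InvG cls inv jj {l // l ≠ p ∧ l ≠ k} (fun l => t l.1) := by
  obtain ⟨hF, hF'⟩ := hF
  refine ⟨fun b c hbc I => ?_, fun I hI l => ?_⟩
  · have h1 : ∀ x, ∑ l : {l // l ≠ p ∧ l ≠ k}, (JJ inv jj b (I l) *
        F (fill p k (inv x) x (Function.update I l c)) + JJ inv jj c (I l) *
        F (fill p k (inv x) x (Function.update I l b))) =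
        -((if x = b then jj b else 0) * F (fill p k c x I) +
          (if x = c then jj c else 0) * F (fill p k b x I) +
          ((if x = inv b then jj b else 0) * F (fill p k (inv x) c I) +
          (if x = inv c then jj c else 0) * F (fill p k (inv x) b I))) := by
      intro x
      have h2 := hF b c hbc (fill p k (inv x) x I)
      rw [sum_split hpk, fill_p, fill_k hpk, fill_update_p hpk, fill_update_p hpk,
        fill_update_k hpk, fill_update_k hpk, JJ_inv_right hinv, JJ_inv_right hinv,
        JJ_right hinv b x, JJ_right hinv c x] at h2
      simp only [fill_l, ← fill_update] at h2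
      have h3 : ∀ y : R, (if inv y = x then jj y else 0) = if x = inv y then jj y else 0 := by
        intro y
        by_cases h : inv y = x
        · rw [if_pos h, if_pos h.symm]
        · rw [if_neg h, if_neg (fun h' => h h'.symm)]
      rw [h3, h3] at h2
      linear_combination h2
    have h4 : ∑ l : {l // l ≠ p ∧ l ≠ k}, (JJ inv jj b (I l) *
        contr inv jj p k F (Function.update I l c) + JJ inv jj c (I l) *
        contr inv jj p k F (Function.update I l b)) =
        ∑ x, (jj x)⁻¹ * ∑ l : {l // l ≠ p ∧ l ≠ k}, (JJ inv jj b (I l) *
        F (fill p k (inv x) x (Function.update I l c)) + JJ inv jj c (I l) *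
        F (fill p k (inv x) x (Function.update I l b))) := by
      simp only [contr, Finset.mul_sum]
      rw [Finset.sum_comm, ← Finset.sum_comm]
      rw [Finset.sum_comm]
      refine Finset.sum_congr rfl fun l _ => ?_
      rw [← Finset.sum_add_distrib]
      refine Finset.sum_congr rfl fun x _ => ?_
      ring
    rw [h4, Finset.sum_congr rfl (fun x _ => by rw [h1 x])]
    have h5 : ∀ x, (jj x)⁻¹ * -((if x = b then jj b else 0) * F (fill p k c x I) +
          (if x = c then jj c else 0) * F (fill p k b x I) +
          ((if x = inv b then jj b else 0) * F (fill p k (inv x) c I) +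
          (if x = inv c then jj c else 0) * F (fill p k (inv x) b I))) =
        (if x = b then -F (fill p k c b I) else 0) + (if x = c then -F (fill p k b c I) else 0) +
        ((if x = inv b then F (fill p k b c I) else 0) +
          (if x = inv c then F (fill p k c b I) else 0)) := by
      intro x
      have e1 : (jj x)⁻¹ * ((if x = b then jj b else 0) * F (fill p k c x I)) =
          if x = b then F (fill p k c b I) else 0 := by
        by_cases h : x = b
        · subst h
          rw [if_pos rfl, if_pos rfl, inv_mul_cancel_left₀ (hj0 x)]
        · rw [if_neg h, if_neg h, zero_mul, mul_zero]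
      have e2 : (jj x)⁻¹ * ((if x = c then jj c else 0) * F (fill p k b x I)) =
          if x = c then F (fill p k b c I) else 0 := by
        by_cases h : x = c
        · subst h
          rw [if_pos rfl, if_pos rfl, inv_mul_cancel_left₀ (hj0 x)]
        · rw [if_neg h, if_neg h, zero_mul, mul_zero]
      have e3 : (jj x)⁻¹ * ((if x = inv b then jj b else 0) * F (fill p k (inv x) c I)) =
          if x = inv b then -F (fill p k b c I) else 0 := by
        by_cases h : x = inv b
        · subst h
          rw [if_pos rfl, if_pos rfl, hinv, hjj]
          have := hj0 b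
          field_simp
        · rw [if_neg h, if_neg h, zero_mul, mul_zero]
      have e4 : (jj x)⁻¹ * ((if x = inv c then jj c else 0) * F (fill p k (inv x) b I)) =
          if x = inv c then -F (fill p k c b I) else 0 := by
        by_cases h : x = inv c
        · subst h
          rw [if_pos rfl, if_pos rfl, hinv, hjj]
          have := hj0 c
          field_simp
        · rw [if_neg h, if_neg h, zero_mul, mul_zero]
      rw [mul_neg, mul_add, mul_add, mul_add, e1, e2, e3, e4]
      split_ifs <;> ring
    rw [Finset.sum_congr rfl (fun x _ => h5 x)]
    simp only [Finset.sum_add_distrib, Finset.sum_ite_eq', Finset.mem_univ, if_true]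
    ring
  · by_contra h
    apply hI
    unfold contr
    refine Finset.sum_eq_zero fun x _ => ?_
    by_cases h1 : F (fill p k (inv x) x I) = 0
    · rw [h1, mul_zero]
    · exfalso
      have h2 := hF' _ h1 l.1
      rw [fill_l] at h2
      exact h h2

include hinv hj0 hcls in
theorem contractionG {t : κ → Q} (F : (κ → R) → Ω) (hF : F ∈ InvG cls inv jj κ t) (p : κ)
    (I : κ → R) (hIp : cls (I p) = t p) :
    ∑ k ∈ Finset.univ.erase p, (if t k = t p then F (fun l => I (swap p k l)) else 0) +
      (((Finset.univ.filter (fun x => cls x = t p)).card : Ω) +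
        (if cls (inv (I p)) = t p then 1 else 0)) * F I +
      ∑ k ∈ Finset.univ.erase p, JJ inv jj (I p) (I k) *
        ∑ x, (jj x)⁻¹ * F (Function.update (Function.update I p (inv x)) k x) = 0 := by
  obtain ⟨hF, hF'⟩ := hF
  have h1 : ∑ x, (if cls (inv x) = t p then ((jj x)⁻¹ * ∑ k, (JJ inv jj x (Function.update I p (inv x) k) *
      F (Function.update (Function.update I p (inv x)) k (I p)) +
      JJ inv jj (I p) (Function.update I p (inv x) k) *
        F (Function.update (Function.update I p (inv x)) k x))) else 0) = 0 := by
    refine Finset.sum_eq_zero fun x _ => ?_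
    split_ifs with hx
    · rw [hF x (I p) (by rw [hx, hIp]) (Function.update I p (inv x)), mul_zero]
    · rfl
  have h2 : ∀ x, ∑ k, (JJ inv jj x (Function.update I p (inv x) k) *
      F (Function.update (Function.update I p (inv x)) k (I p)) +
      JJ inv jj (I p) (Function.update I p (inv x) k) *
        F (Function.update (Function.update I p (inv x)) k x)) =
      (jj x * F I + (if x = I p then jj (I p) else 0) * F (Function.update I p x)) +
      ∑ k ∈ Finset.univ.erase p, (JJ inv jj x (I k) *
        F (Function.update (Function.update I p (inv x)) k (I p)) +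
        JJ inv jj (I p) (I k) * F (Function.update (Function.update I p (inv x)) k x)) := by
    intro x
    rw [← Finset.add_sum_erase _ _ (Finset.mem_univ p)]
    congr 1
    · rw [Function.update_self, Function.update_idem, Function.update_idem,
        Function.update_eq_self, JJ_inv_right hinv, JJ_inv_right hinv, if_pos rfl]
    · refine Finset.sum_congr rfl fun k hk => ?_
      rw [Function.update_of_ne (Finset.ne_of_mem_erase hk)]
  have h2' : ∀ x, (if cls (inv x) = t p then ((jj x)⁻¹ * ∑ k, (JJ inv jj x (Function.update I p (inv x) k) *
      F (Function.update (Function.update I p (inv x)) k (I p)) +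
      JJ inv jj (I p) (Function.update I p (inv x) k) *
        F (Function.update (Function.update I p (inv x)) k x))) else 0) =
      (if cls (inv x) = t p then ((jj x)⁻¹ * (jj x * F I + (if x = I p then jj (I p) else 0) *
        F (Function.update I p x))) else 0) +
      (if cls (inv x) = t p then (jj x)⁻¹ * ∑ k ∈ Finset.univ.erase p, (JJ inv jj x (I k) *
        F (Function.update (Function.update I p (inv x)) k (I p)) +
        JJ inv jj (I p) (I k) * F (Function.update (Function.update I p (inv x)) k x)) else 0) := by
    intro x
    by_cases hx : cls (inv x) = t p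
    · rw [if_pos hx, if_pos hx, if_pos hx, h2 x, mul_add]
    · rw [if_neg hx, if_neg hx, if_neg hx, add_zero]
  rw [Finset.sum_congr rfl (fun x _ => h2' x), Finset.sum_add_distrib] at h1
  have h3 : ∑ x, (if cls (inv x) = t p then ((jj x)⁻¹ * (jj x * F I + (if x = I p then jj (I p) else 0) *
        F (Function.update I p x))) else 0) =
      (((Finset.univ.filter (fun x => cls x = t p)).card : Ω) +
        (if cls (inv (I p)) = t p then 1 else 0)) * F I := by
    have h4 : ∀ x, (if cls (inv x) = t p then ((jj x)⁻¹ * (jj x * F I +
        (if x = I p then jj (I p) else 0) * F (Function.update I p x))) else 0) =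
        (if cls (inv x) = t p then F I else 0) +
          (if x = I p then (if cls (inv (I p)) = t p then F I else 0) else 0) := by
      intro x
      by_cases h : x = I p
      · subst h
        rw [if_pos rfl, if_pos rfl, Function.update_eq_self]
        have := hj0 (I p)
        split_ifs
        · field_simp
        · rw [add_zero]
      · rw [if_neg h, if_neg h, zero_mul, add_zero, add_zero, inv_mul_cancel_left₀ (hj0 x)]
    rw [Finset.sum_congr rfl (fun x _ => h4 x), Finset.sum_add_distrib,
      Finset.sum_ite_eq' Finset.univ (I p), if_pos (Finset.mem_univ _)]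
    have h5 : ∑ x, (if cls (inv x) = t p then F I else 0) =
        ((Finset.univ.filter (fun x => cls x = t p)).card : Ω) * F I := by
      let E : R ≃ R := ⟨inv, inv, hinv, hinv⟩
      rw [← Equiv.sum_comp E]
      change ∑ x, (if cls (inv (inv x)) = t p then F I else 0) = _
      simp only [hinv]
      rw [← Finset.sum_filter, Finset.sum_const, nsmul_eq_mul]
    rw [h5]
    split_ifs <;> ring
  have h5 : ∑ x, (if cls (inv x) = t p then (jj x)⁻¹ * ∑ k ∈ Finset.univ.erase p, (JJ inv jj x (I k) *
        F (Function.update (Function.update I p (inv x)) k (I p)) +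
        JJ inv jj (I p) (I k) * F (Function.update (Function.update I p (inv x)) k x)) else 0) =
      ∑ k ∈ Finset.univ.erase p, (if t k = t p then F (fun l => I (swap p k l)) else 0) +
      ∑ k ∈ Finset.univ.erase p, JJ inv jj (I p) (I k) *
        ∑ x, (jj x)⁻¹ * F (Function.update (Function.update I p (inv x)) k x) := by
    have h6 : ∀ x, (if cls (inv x) = t p then (jj x)⁻¹ * ∑ k ∈ Finset.univ.erase p,
        (JJ inv jj x (I k) * F (Function.update (Function.update I p (inv x)) k (I p)) +
        JJ inv jj (I p) (I k) * F (Function.update (Function.update I p (inv x)) k x)) else 0) =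
        ∑ k ∈ Finset.univ.erase p, ((if x = inv (I k) then (if cls (I k) = t p then
          F (fun l => I (swap p k l)) else 0) else 0) +
        JJ inv jj (I p) (I k) * ((jj x)⁻¹ *
          F (Function.update (Function.update I p (inv x)) k x))) := by
      intro x
      by_cases hx : cls (inv x) = t p
      · rw [if_pos hx, Finset.mul_sum]
        refine Finset.sum_congr rfl fun k hk => ?_
        have hkp := Finset.ne_of_mem_erase hk
        rw [mul_add]
        congr 1
        · rw [JJ_right hinv]
          by_cases h : inv x = I k
          · rw [if_pos h, if_pos (by rw [← h, hinv]), h, inv_mul_cancel_left₀ (hj0 x),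
              if_pos (by rw [← h]; exact hx)]
            congr 1
            funext l
            by_cases hl : l = k
            · subst hl
              rw [Function.update_self, swap_apply_right]
            · rw [Function.update_of_ne hl]
              by_cases hl2 : l = p
              · subst hl2
                rw [Function.update_self, swap_apply_left]
              · rw [Function.update_of_ne hl2, swap_apply_of_ne_of_ne hl2 hl]
          · rw [if_neg h, if_neg (fun h2 => h (by rw [h2, hinv])), zero_mul, mul_zero]
        · ring
      · rw [if_neg hx]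
        symm
        refine Finset.sum_eq_zero fun k hk => ?_
        have hkp := (Finset.ne_of_mem_erase hk).symm
        have h7 : F (Function.update (Function.update I p (inv x)) k x) = 0 := by
          by_contra h8
          apply hx
          have h9 := hF' _ h8 p
          rwa [Function.update_of_ne hkp, Function.update_self] at h9
        rw [h7, mul_zero, mul_zero, add_zero]
        split_ifs with h8 h9
        · exfalso
          apply hx
          rw [h8, hinv]
          exact h9
        · rfl
        · rfl
    rw [Finset.sum_congr rfl (fun x _ => h6 x), Finset.sum_comm]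
    simp only [Finset.sum_add_distrib, ← Finset.mul_sum]
    congr 1
    refine Finset.sum_congr rfl fun k hk => ?_
    have hkp := (Finset.ne_of_mem_erase hk).symm
    rw [Finset.sum_ite_eq', if_pos (Finset.mem_univ _)]
    by_cases h7 : F (fun l => I (swap p k l)) = 0
    · rw [h7]
      split_ifs <;> rfl
    · have h8 := hF' _ h7 p
      have h9 := hF' _ h7 k
      simp only [swap_apply_left] at h8
      simp only [swap_apply_right] at h9
      rw [if_pos h8, if_pos (by rw [← h9, hIp])]
  rw [h3, h5] at h1
  linear_combination h1

/-- The action of the permutations of the positions of a given type. -/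
def pactC (t : κ → Q) (C : Q) : Representation Ω (Perm {k // t k = C}) ((κ → R) → Ω) :=
  (pact (Ω := Ω) (R := R) κ).comp (Perm.ofSubtype (p := fun k => t k = C))

theorem pactC_apply (t : κ → Q) (C : Q) (σ : Perm {k // t k = C}) (F : (κ → R) → Ω) (I : κ → R) :
    pactC t C σ F I = F (fun l => I (Perm.ofSubtype σ l)) := rfl

theorem perm_inv (σ : Perm κ) (k : κ) : σ (σ⁻¹ k) = k := by
  rw [← Perm.mul_apply, mul_inv_cancel, Perm.one_apply]

theorem type_ofSubtype (t : κ → Q) (C : Q) (σ : Perm {k // t k = C}) (k : κ) :
    t (Perm.ofSubtype σ k) = t k := by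
  by_cases hk : t k = C
  · rw [Perm.ofSubtype_apply_of_mem σ hk, hk]
    exact (σ ⟨k, hk⟩).2
  · rw [Perm.ofSubtype_apply_of_not_mem σ hk]

theorem ofSubtype_swap' (t : κ → Q) (C : Q) (p k : {k // t k = C}) (l : κ) :
    Perm.ofSubtype (swap p k) l = swap p.1 k.1 l := by
  rw [Perm.ofSubtype_swap_eq]

theorem InvG_stable (t : κ → Q) (C : Q) (σ : Perm {k // t k = C}) (F : (κ → R) → Ω)
    (hF : F ∈ InvG cls inv jj κ t) : pactC t C σ F ∈ InvG cls inv jj κ t := by
  obtain ⟨hF, hF'⟩ := hF
  refine ⟨fun b c hbc I => ?_, fun I hI k => ?_⟩
  · have h1 := hF b c hbc (fun k => I (Perm.ofSubtype σ k))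
    rw [← h1]
    refine (Fintype.sum_equiv (Perm.ofSubtype σ) _ _ fun k => ?_).symm
    rw [pactC_apply, pactC_apply, update_comp, update_comp]
  · rw [pactC_apply] at hI
    have h1 := hF' _ hI ((Perm.ofSubtype σ)⁻¹ k)
    rw [perm_inv] at h1
    rw [h1, ← type_ofSubtype t C σ, perm_inv]

theorem antiG_eq_zero [CharZero Ω] (t : κ → Q) (C : Q) (A : Finset {k // t k = C})
    (hA : (Finset.univ.filter (fun x => cls x = C)).card < A.card)
    (F : (κ → R) → Ω) (hF : ∀ I, F I ≠ 0 → ∀ k, cls (I k) = t k) :
    anti (pactC t C) A F = 0 := by
  funext I
  rw [Pi.zero_apply]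
  by_cases hout : ∃ k ∈ A, cls (I k.1) ≠ C
  · obtain ⟨k, hk, hkC⟩ := hout
    unfold anti
    rw [Finset.sum_apply]
    refine Finset.sum_eq_zero fun σ _ => ?_
    rw [Pi.smul_apply, pactC_apply]
    have h1 : F (fun l => I (Perm.ofSubtype σ l)) = 0 := by
      by_contra h2
      apply hkC
      have h3 := hF _ h2 ((Perm.ofSubtype σ)⁻¹ k.1)
      rw [perm_inv] at h3
      rw [h3, ← type_ofSubtype t C σ, perm_inv]
      exact k.2
    rw [h1, smul_zero]
  · push Not at hout
    have h1 : ¬ Set.InjOn (fun k : {k // t k = C} => I k.1) A := by
      intro h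
      have h2 := Finset.card_image_of_injOn h
      have h3 : A.image (fun k : {k // t k = C} => I k.1) ⊆ Finset.univ.filter (fun x => cls x = C) := by
        intro x hx
        rw [Finset.mem_image] at hx
        obtain ⟨k, hk, rfl⟩ := hx
        rw [Finset.mem_filter]
        exact ⟨Finset.mem_univ _, hout k hk⟩
      have h4 := Finset.card_le_card h3
      omega
    simp only [Set.InjOn, not_forall] at h1
    obtain ⟨p, hp, q, hq, hpq, hne⟩ := h1
    have h2 := congrFun (anti_swap (pactC t C) A F hp hq hne) I
    rw [pactC_apply, Pi.neg_apply] at h2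
    have h3 : (fun l => I (Perm.ofSubtype (swap p q) l)) = I := by
      funext l
      rw [ofSubtype_swap']
      by_cases h : l = p.1
      · subst h
        rw [swap_apply_left]
        exact hpq.symm
      · by_cases h' : l = q.1
        · subst h'
          rw [swap_apply_right]
          exact hpq
        · rw [swap_apply_of_ne_of_ne h h']
    rw [h3] at h2
    have h4 : (2 : Ω) * anti (pactC t C) A F I = 0 := by linear_combination h2
    exact (mul_eq_zero.1 h4).resolve_left two_ne_zero

end

noncomputable section

universe u

variable {R : Type*} [Fintype R] [DecidableEq R] {Ω : Type*} [Field Ω] [CharZero Ω]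
  {Q : Type*} [DecidableEq Q] {cls : R → Q} {inv : R → R} {jj : R → Ω}

/-- **First fundamental theorem** for products of symplectic and general linear groups, in
coordinates. -/
theorem fftG (hinv : ∀ x, inv (inv x) = x) (hjj : ∀ x, jj (inv x) = -jj x) (hj0 : ∀ x, jj x ≠ 0)
    (hcls : ∀ x y, cls x = cls y → cls (inv x) = cls (inv y))
    (m : ℕ) : ∀ (κ : Type u) [Fintype κ] [DecidableEq κ], Fintype.card κ = 2 * m →
      ∀ t : κ → Q, InvG cls inv jj κ t ≤ MatG cls inv jj κ m := by
  induction m with
  | zero =>
    intro κ _ _ hκ t F _
    have _ : IsEmpty κ := Fintype.card_eq_zero_iff.1 (by omega)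
    have h1 : F = F isEmptyElim • matG cls inv jj (Equiv.equivOfIsEmpty (Fin 0 × Fin 2) κ)
        (fun s => s.elim0) := by
      funext I
      have h2 : I = isEmptyElim := Subsingleton.elim _ _
      rw [h2, Pi.smul_apply]
      simp [matG]
    rw [h1]
    exact Submodule.smul_mem _ _ (Submodule.subset_span ⟨_, _, rfl⟩)
  | succ m ih =>
    intro κ _ _ hκ t
    obtain ⟨p₀⟩ : Nonempty κ := Fintype.card_pos_iff.1 (by omega)
    set C := t p₀ with hC
    -- the constant
    obtain ⟨ε, hε⟩ : ∃ ε : ℕ, ∀ x : R, cls x = C → (if cls (inv x) = C then 1 else 0) = ε := by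
      by_cases h : ∃ x, cls x = C
      · obtain ⟨x, hx⟩ := h
        refine ⟨if cls (inv x) = C then 1 else 0, fun y hy => ?_⟩
        rw [hcls y x (by rw [hx, hy])]
      · exact ⟨0, fun x hx => absurd ⟨x, hx⟩ h⟩
    refine le_of_anti' (pactC t C) (InvG cls inv jj κ t) (MatG cls inv jj κ (m + 1))
      (fun σ F hF => InvG_stable t C σ F hF) (Finset.univ.filter (fun x => cls x = C)).card
      ((Finset.univ.filter (fun x => cls x = C)).card + ε) (by omega) ?_ ?_ ⟨p₀, rfl⟩
    · intro F hF p
      have h1 : ∑ k ∈ Finset.univ.erase p, pactC t C (swap p k) F +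
          (((Finset.univ.filter (fun x => cls x = C)).card + ε : ℕ) : Ω) • F =
          -∑ k ∈ Finset.univ.erase p.1,
            (fun I : κ → R => (if cls (I p.1) = C then JJ inv jj (I p.1) (I k) else 0) *
              contr inv jj p.1 k F (fun l => I l.1)) := by
        funext I
        rw [Pi.add_apply, Finset.sum_apply, Pi.smul_apply, Pi.neg_apply, Finset.sum_apply,
          smul_eq_mul]
        have h0 : ∑ k ∈ Finset.univ.erase p, pactC t C (swap p k) F I =
            ∑ k ∈ Finset.univ.erase p.1, (if t k = C then F (fun l => I (swap p.1 k l)) else 0) := by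
          rw [← Finset.sum_filter]
          refine Finset.sum_bij (fun k _ => k.1) ?_ ?_ ?_ ?_
          · intro k hk
            rw [Finset.mem_filter, Finset.mem_erase]
            exact ⟨⟨fun h => (Finset.ne_of_mem_erase hk) (Subtype.ext h), Finset.mem_univ _⟩, k.2⟩
          · intro k _ k' _ h
            exact Subtype.ext h
          · intro k hk
            rw [Finset.mem_filter, Finset.mem_erase] at hk
            refine ⟨⟨k, hk.2⟩, ?_, rfl⟩
            rw [Finset.mem_erase]
            exact ⟨fun h => hk.1.1 (congrArg Subtype.val h), Finset.mem_univ _⟩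
          · intro k _
            rw [pactC_apply]
            congr 1
            funext l
            rw [ofSubtype_swap']
        rw [h0]
        have hp : t p.1 = C := p.2
        by_cases hI : cls (I p.1) = C
        · have h2 := contractionG hinv hj0 hcls F hF p.1 I (by rw [hI, hp])
          rw [hp] at h2
          have h3 : (if cls (inv (I p.1)) = C then (1 : Ω) else 0) = ((ε : ℕ) : Ω) := by
            rw [← hε (I p.1) hI]
            push_cast
            rfl
          rw [h3] at h2
          have h4 : ∑ k ∈ Finset.univ.erase p.1, (fun I : κ → R =>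
              (if cls (I p.1) = C then JJ inv jj (I p.1) (I k) else 0) *
              contr inv jj p.1 k F (fun l => I l.1)) I =
              ∑ k ∈ Finset.univ.erase p.1, JJ inv jj (I p.1) (I k) *
              ∑ x, (jj x)⁻¹ * F (Function.update (Function.update I p.1 (inv x)) k x) := by
            refine Finset.sum_congr rfl fun k hk => ?_
            have hkp := (Finset.ne_of_mem_erase hk).symm
            change (if cls (I p.1) = C then JJ inv jj (I p.1) (I k) else 0) *
              contr inv jj p.1 k F (fun l => I l.1) = _
            rw [if_pos hI]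
            simp only [contr]
            refine congrArg₂ (fun x y : Ω => x * y) rfl (Finset.sum_congr rfl fun x _ => ?_)
            rw [fill_restrict hkp]
          rw [h4]
          push_cast
          linear_combination h2
        · have h2 : F I = 0 := by
            by_contra h3
            exact hI (by rw [hF.2 I h3, hp])
          rw [h2, mul_zero, add_zero]
          have h3 : ∑ k ∈ Finset.univ.erase p.1, (if t k = C then F (fun l => I (swap p.1 k l))
              else 0) = 0 := by
            refine Finset.sum_eq_zero fun k _ => ?_
            split_ifs with hk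
            · by_contra h4
              apply hI
              have h5 := hF.2 _ h4 k
              simp only [swap_apply_right] at h5
              rw [h5, hk]
            · rfl
          rw [h3]
          symm
          rw [neg_eq_zero]
          refine Finset.sum_eq_zero fun k _ => ?_
          rw [if_neg hI, zero_mul]
      rw [h1]
      refine Submodule.neg_mem _ (Submodule.sum_mem _ fun k hk => ?_)
      have hkp := (Finset.ne_of_mem_erase hk).symm
      have hcard : Fintype.card {l // l ≠ p.1 ∧ l ≠ k} = 2 * m := by
        have h3 : Fintype.card {l // l ≠ p.1 ∧ l ≠ k} = ((Finset.univ.erase p.1).erase k).card := by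
          rw [Fintype.card_subtype]
          congr 1
          ext l
          simp [and_comm]
        rw [h3, Finset.card_erase_of_mem (by simp [hkp.symm]), Finset.card_erase_of_mem
          (Finset.mem_univ _), Finset.card_univ, hκ]
        omega
      have h3 := ih {l // l ≠ p.1 ∧ l ≠ k} hcard (fun l => t l.1)
        (contr_memG hinv hjj hj0 hkp F hF)
      have h4 : ∀ D ∈ MatG cls inv jj {l // l ≠ p.1 ∧ l ≠ k} m,
          (fun I : κ → R => (if cls (I p.1) = C then JJ inv jj (I p.1) (I k) else 0) *
            D (fun l => I l.1)) ∈ MatG cls inv jj κ (m + 1) := by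
        intro D hD
        induction hD using Submodule.span_induction with
        | mem D hD =>
          obtain ⟨e, c, rfl⟩ := hD
          obtain ⟨e', he0, he1, he'⟩ := exists_extend hkp hκ e
          refine Submodule.subset_span ⟨e', Fin.cons C c, ?_⟩
          funext I
          simp only [matG]
          rw [Fin.prod_univ_succ, he0, he1]
          simp only [Fin.cons_zero, Fin.cons_succ]
          congr 1
          exact Finset.prod_congr rfl fun s _ => by rw [he', he']
        | zero =>
          simp only [Pi.zero_apply, mul_zero]
          exact Submodule.zero_mem _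
        | add a b _ _ ha hb =>
          simp only [Pi.add_apply, mul_add]
          exact Submodule.add_mem _ ha hb
        | smul c a _ ha =>
          have h5 := Submodule.smul_mem _ c ha
          convert h5 using 1
          funext I
          simp only [Pi.smul_apply, smul_eq_mul]
          ring
      exact h4 _ h3
    · intro A hA F hF
      rw [antiG_eq_zero t C A (by omega) F hF.2]
      exact Submodule.zero_mem _

end

end Pool.Agent.H204R3.GP
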