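import Mathlib

/-!
# Tate classes on the powers of an abelian variety

`V` is the rational Tate module `V_ℓ(A)` of an abelian variety `A` over a field `K`, `ρ` the action
of the Galois group `Γ` of `K` on it, `χ` the cyclotomic character.  The cohomology group
`H^w(A^n, ℚ_ℓ)` is the space of the alternating forms on `V ^ n` in `w` variables.
-/

namespace Pool.Agent.H204R3.GP

/-- A class in `H^{2m}(A^n, ℚ_ℓ(m))`, that is an alternating form `f` on `V ^ n` (in `2 m` variables,
indexed by `κ`), is a *Tate class* if it is fixed by a subgroup `Δ` of finite index of the Galois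
group: the form satisfies `f (s v) = χ(s) ^ m * f(v)` for `s` in `Δ`. -/
def IsTateClass {k V Γ : Type*} [Field k] [AddCommGroup V] [Module k V] [Group Γ]
    (ρ : Representation k Γ V) (χ : Γ →* k) {n : ℕ} (m : ℕ) {κ : Type*}
    (f : (Fin n → V) [⋀^κ]→ₗ[k] k) : Prop :=
  ∃ Δ : Subgroup Γ, Δ.FiniteIndex ∧ ∀ s ∈ Δ, ∀ v : κ → Fin n → V,
    f (fun l i => ρ s (v l i)) = χ s ^ m * f v

/-- `g` is (a multiple by a nonzero rational number of) the wedge product `B 0 ∧ ... ∧ B (m - 1)`. -/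
def IsWedge {k W : Type*} [Field k] [AddCommGroup W] [Module k W] {m : ℕ}
    (B : Fin m → W [⋀^Fin 2]→ₗ[k] k) (g : W [⋀^Fin m × Fin 2]→ₗ[k] k) : Prop :=
  ∀ v, g v = ∑ σ : Equiv.Perm (Fin m × Fin 2), ((Equiv.Perm.sign σ : ℤ) : k) *
    ∏ l, B l ![v (σ (l, 0)), v (σ (l, 1))]

/-- On all powers `A ^ n`, all Tate classes are linear combinations of wedge products of Tate
classes of degree two. -/
def TateGeneratedInDegreeTwo {k V Γ : Type*} [Field k] [AddCommGroup V] [Module k V] [Group Γ]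
    (ρ : Representation k Γ V) (χ : Γ →* k) : Prop :=
  ∀ (n m : ℕ) (f : (Fin n → V) [⋀^Fin m × Fin 2]→ₗ[k] k), IsTateClass ρ χ m f →
    f ∈ Submodule.span k {g : (Fin n → V) [⋀^Fin m × Fin 2]→ₗ[k] k |
      ∃ B : Fin m → (Fin n → V) [⋀^Fin 2]→ₗ[k] k, (∀ l, IsTateClass ρ χ 1 (B l)) ∧ IsWedge B g}

/-- The representation is semisimple as a representation of every subgroup of finite index (every
stable subspace has a stable complement). -/
def FiniteIndexSemisimple {k V Γ : Type*} [Field k] [AddCommGroup V] [Module k V] [Group Γ]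
    (ρ : Representation k Γ V) : Prop :=
  ∀ Δ : Subgroup Γ, Δ.FiniteIndex → ∀ U : Submodule k V, (∀ s ∈ Δ, ∀ u ∈ U, ρ s u ∈ U) →
    ∃ U' : Submodule k V, (∀ s ∈ Δ, ∀ u ∈ U', ρ s u ∈ U') ∧ IsCompl U U'

end Pool.Agent.H204R3.GP
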