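import Mathlib
import Pool.Agent.H86.CMLib.H204R3.CM.Nondeg
import Pool.Agent.H86.CMLib.H204R3.SP.Frob
import Pool.Agent.H86.CMLib.H204R3.GP.SlopesG
import Pool.Agent.H86.CMLib.H204R3.GP.DescentG

/-!
# Tate classes and one Frobenius element, without conditions on the endomorphisms
-/

set_option linter.unusedSectionVars false

namespace Pool.Agent.H204R3.GP

open NumberField Module Pool.Agent.H204R3.CM Pool.Agent.H204R3.SP TensorProduct IntermediateField

noncomputable section

/-- A finite extension of `k` into which the number field `L` embeds. -/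
theorem exists_finite_ext (k : Type*) [Field k] [CharZero k] (L : Type*) [Field L]
    [NumberField L] :
    ∃ (Ω : IntermediateField k (AlgebraicClosure k)) (_ : FiniteDimensional k Ω),
      Nonempty (L →+* Ω) := by
  let j0 : L →ₐ[ℚ] AlgebraicClosure k := IsAlgClosed.lift
  let b := Module.finBasis ℚ L
  let S : Set (AlgebraicClosure k) := Set.range (fun i => j0 (b i))
  have hfin : FiniteDimensional k (IntermediateField.adjoin k S) := by
    have _ : Finite S := Set.finite_range _
    refine IntermediateField.finiteDimensional_adjoin fun x _ => ?_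
    exact (Algebra.IsAlgebraic.isAlgebraic x).isIntegral
  have hmem : ∀ x : L, j0 x ∈ IntermediateField.adjoin k S := by
    intro x
    rw [← b.sum_repr x, map_sum]
    refine sum_mem fun i _ => ?_
    rw [Algebra.smul_def, map_mul]
    refine mul_mem ?_ (IntermediateField.subset_adjoin k S ⟨i, rfl⟩)
    rw [eq_ratCast (algebraMap ℚ L), map_ratCast]
    exact SubfieldClass.ratCast_mem _ _
  exact ⟨IntermediateField.adjoin k S, hfin,
    ⟨{ toFun := fun x => ⟨j0 x, hmem x⟩
       map_one' := Subtype.ext (map_one j0)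
       map_mul' := fun x y => Subtype.ext (map_mul j0 x y)
       map_zero' := Subtype.ext (map_zero j0)
       map_add' := fun x y => Subtype.ext (map_add j0 x y) }⟩⟩

/-- A basis of eigenvectors. -/
theorem exists_eigenbasisG {ι : Type*} [Fintype ι] {F : ι → Type*} [∀ i, Field (F i)]
    [∀ i, NumberField (F i)] {L Ω : Type*} [Field L] [CharZero L]
    [Field Ω] [CharZero Ω] {π : ∀ i, F i} (hgen : ∀ i, ℚ⟮π i⟯ = ⊤) (jΩ : L →+* Ω)
    [∀ i, Fintype (F i →+* L)] (hcard : ∀ i, Fintype.card (F i →+* L) = finrank ℚ (F i))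
    (hinj : Function.Injective (val π (L := L)))
    {W : Type*} [AddCommGroup W] [Module Ω W] [FiniteDimensional Ω W] (T : Module.End Ω W)
    (hT : T.charpoly = ∏ i, (minpoly ℚ (π i)).map (algebraMap ℚ Ω)) :
    ∃ e : Basis (Σ i, (F i →+* L)) Ω W, ∀ x, T (e x) = jΩ (val π x) • e x := by
  classical
  have h1 : ∀ x : Σ i, (F i →+* L), T.HasEigenvalue (jΩ (val π x)) := by
    intro x
    rw [Module.End.hasEigenvalue_iff_isRoot_charpoly, hT, Polynomial.IsRoot,
      Polynomial.eval_prod]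
    refine Finset.prod_eq_zero (Finset.mem_univ x.1) ?_
    rw [Polynomial.eval_map_algebraMap]
    let y : F x.1 →ₐ[ℚ] Ω := RingHom.equivRatAlgHom (F x.1) Ω (jΩ.comp x.2)
    have h2 := minpoly.aeval ℚ (π x.1)
    have h3 := congrArg y h2
    rw [← Polynomial.aeval_algHom_apply, map_zero] at h3
    exact h3
  choose v hv using fun x => (h1 x).exists_hasEigenvector
  have hinj' : Function.Injective (fun x : Σ i, (F i →+* L) => jΩ (val π x)) := by
    intro x y hxy
    exact hinj (jΩ.injective hxy)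
  have hli := Module.End.eigenvectors_linearIndependent' T
    (fun x : Σ i, (F i →+* L) => jΩ (val π x)) hinj' v hv
  have hfin : Fintype.card (Σ i, (F i →+* L)) = finrank Ω W := by
    rw [← LinearMap.charpoly_natDegree T, hT, Polynomial.natDegree_prod_of_monic, Fintype.card_sigma]
    · refine Finset.sum_congr rfl fun i _ => ?_
      rw [Polynomial.natDegree_map, hcard]
      exact ((Field.primitive_element_iff_minpoly_natDegree_eq ℚ (π i)).1 (hgen i)).symm
    · intro i _
      exact (minpoly.monic (Algebra.IsIntegral.isIntegral (π i))).map _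
  by_cases hne : Nonempty (Σ i, (F i →+* L))
  · refine ⟨basisOfLinearIndependentOfCardEqFinrank hli hfin, fun x => ?_⟩
    rw [coe_basisOfLinearIndependentOfCardEqFinrank]
    exact (hv x).apply_eq_smul
  · have hemp : IsEmpty (Σ i, (F i →+* L)) := not_nonempty_iff.1 hne
    have h0 : finrank Ω W = 0 := by rw [← hfin, Fintype.card_eq_zero_iff]; exact hemp
    have _ : Subsingleton W := finrank_zero_iff.1 h0
    exact ⟨Basis.empty W, fun x => hemp.elim x⟩

/-- The main theorem: Tate forms are combinations of products of Tate forms of degree two. -/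
theorem tate_of_frobenius {k : Type*} [Field k] [CharZero k] {V : Type*} [AddCommGroup V]
    [Module k V] [FiniteDimensional k V]
    {p : ℕ} [Fact p.Prime] {a : ℕ} (ha : 0 < a)
    {ι : Type*} [Fintype ι] {F : ι → Type*} [∀ i, Field (F i)] [∀ i, NumberField (F i)]
    [∀ i, IsCMField (F i)] {π : ∀ i, F i} (hgen : ∀ i, ℚ⟮π i⟯ = ⊤)
    (hw : ∀ i, π i * IsCMField.complexConj (F i) (π i) = (p : F i) ^ a)
    (hslope : ∀ i, OddSlopes p a (π i)) {d : ι → ℕ} (hdeg : ∀ i, finrank ℚ (F i) = 2 ^ (d i + 1))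
    (hdisc : ∀ S : Finset ι, S.Nonempty → ¬ IsSquare (∏ i ∈ S, discr (F i)))
    {Γ : Type*} [Group Γ] (ρ : Representation k Γ V) (χ : Γ →* k)
    (ω : V →ₗ[k] V →ₗ[k] k) (halt : ∀ v, ω v v = 0) (hnd : ∀ u, (∀ v, ω v u = 0) → u = 0)
    (hωρ : ∀ s u v, ω (ρ s u) (ρ s v) = χ s * ω u v)
    (hss : ∀ Δ : Subgroup Γ, Δ.FiniteIndex → SemiUnder (ρ '' (Δ : Set Γ)))
    (γ : Γ) (hχ : χ γ = (p : k) ^ a)
    (hγ : (ρ γ).charpoly = ∏ i, (minpoly ℚ (π i)).map (algebraMap ℚ k))
    {m : ℕ} (φ : MultilinearMap k (fun _ : Fin m × Fin 2 => V) k) (hφ : IsTate ρ χ m φ) :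
    φ ∈ Submodule.span k (PT ρ χ m) := by
  classical
  obtain ⟨L, hL1, hL2, j, h⟩ := exists_galois F
  obtain ⟨Ω, hΩ, ⟨jΩ⟩⟩ := exists_finite_ext k L
  let jp : L →ₐ[ℚ] PadicAlgCl p := IsAlgClosed.lift
  have hinjv := val_inj ha hw hslope hdeg hdisc j h (jp : L →+* PadicAlgCl p)
  have hcardE : ∀ i, Fintype.card (F i →+* L) = finrank ℚ (F i) := fun i => card_emb j (h i)
  have hanti : ∀ u v, ω u v = -ω v u := by
    intro u v
    have h1 := halt (u + v)
    simp only [map_add, LinearMap.add_apply, halt, zero_add, add_zero] at h1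
    exact eq_neg_of_add_eq_zero_left (by rw [← h1]; ring)
  have hnd' : ∀ u, (∀ v, ω u v = 0) → u = 0 := by
    intro u hu
    apply hnd
    intro v
    rw [hanti, hu, neg_zero]
  let b := Module.finBasis k V
  have hTchar : (bcr ρ Ω γ).charpoly = ∏ i, (minpoly ℚ (π i)).map (algebraMap ℚ Ω) := by
    change ((ρ γ).baseChange Ω).charpoly = _
    rw [LinearMap.charpoly_baseChange, hγ, Polynomial.map_prod]
    refine Finset.prod_congr rfl fun i _ => ?_
    rw [Polynomial.map_map]
    congr 1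
  obtain ⟨e, he⟩ := exists_eigenbasisG (Ω := Ω) (L := L) hgen jΩ hcardE hinjv
    (bcr ρ Ω γ) hTchar
  have hantiΩ : ∀ u v, bcb Ω ω u v = -bcb Ω ω v u := by
    have h1 : bcb Ω ω = -(bcb Ω ω).flip := by
      refine (b.baseChange Ω).ext fun i => (b.baseChange Ω).ext fun l => ?_
      rw [LinearMap.neg_apply, LinearMap.neg_apply, LinearMap.flip_apply, Basis.baseChange_apply,
        Basis.baseChange_apply, bcb_one, bcb_one, hanti, map_neg]
    intro u v
    exact congrArg (fun F : (Ω ⊗[k] V) →ₗ[Ω] (Ω ⊗[k] V) →ₗ[Ω] Ω => F u v) h1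
  have hq : ∀ x y : Σ i, (F i →+* L), y ≠ bar x → bcb Ω ω (e x) (e y) = 0 := by
    intro x y hxy
    by_contra h0
    apply hxy
    have h1 := bcb_inv ρ χ (Ω := Ω) ω hωρ γ (e x) (e y)
    rw [he, he, map_smul, map_smul, LinearMap.smul_apply, smul_eq_mul, smul_eq_mul, bcc_apply, hχ,
      ← mul_assoc] at h1
    have h2 := mul_right_cancel₀ h0 h1
    have h3 : jΩ (val π y * val π x) = jΩ ((p : L) ^ a) := by
      simp only [map_mul, map_pow, map_natCast] at h2 ⊢
      exact h2
    have h4 := jΩ.injective h3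
    have h5 := val_bar (L := L) hw x
    have hx0 : val π x ≠ 0 := by
      intro h6
      rw [h6, zero_mul] at h5
      exact pow_ne_zero a (Nat.cast_ne_zero.2 (Fact.out : p.Prime).ne_zero) h5.symm
    apply hinjv
    apply mul_left_cancel₀ hx0
    rw [h5, mul_comm, h4]
  let jj : (Σ i, (F i →+* L)) → Ω := fun x => bcb Ω ω (e x) (e (bar x))
  have hjj : ∀ x, jj (bar x) = -jj x := by
    intro x
    simp only [jj, bar_bar]
    exact hantiΩ _ _
  have hj0 : ∀ x, jj x ≠ 0 := by
    intro x h0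
    apply e.ne_zero (bar x)
    apply bcb_nondeg b ω hnd hnd'
    have h1 : (bcb Ω ω).flip (e (bar x)) = 0 := by
      refine e.ext fun y => ?_
      rw [LinearMap.flip_apply, LinearMap.zero_apply]
      by_cases hy : bar x = bar y
      · have h2 : y = x := by rw [← bar_bar y, ← hy, bar_bar]
        rw [h2]
        exact h0
      · exact hq _ _ hy
    intro v
    exact congrArg (fun F : (Ω ⊗[k] V) →ₗ[Ω] Ω => F v) h1
  have hω : ∀ x y, bcb Ω ω (e x) (e y) = JJ bar jj x y := by
    intro x y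
    unfold JJ
    by_cases hy : y = bar x
    · rw [if_pos hy, hy]
    · rw [if_neg hy, hq x y hy]
  have hbal : ∀ (m : ℕ) (φ : MultilinearMap Ω (fun _ : Fin m × Fin 2 => Ω ⊗[k] V) Ω),
      IsTate (bcr ρ Ω) (bcc χ Ω) m φ →
      ∀ I : Fin m × Fin 2 → (Σ i, (F i →+* L)), φ (fun l => e (I l)) ≠ 0 → ∀ y,
        (Finset.univ.filter (fun l => I l = y)).card =
          (Finset.univ.filter (fun l => I l = bar y)).card := by
    rintro m φ ⟨Δ, hΔ, hφ⟩ I hI y
    obtain ⟨M, hM, -, hMΔ⟩ := Subgroup.exists_pow_mem_of_index_ne_zero hΔ.index_ne_zero γ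
    refine balanceG ha hw hslope hdeg hdisc j h (jp : L →+* PadicAlgCl p) hM I ?_ y
    have h1 := hφ (γ ^ M) hMΔ (fun l => e (I l))
    have h2 : ∀ (n : ℕ) (x : Σ i, (F i →+* L)),
        bcr ρ Ω (γ ^ n) (e x) = (jΩ (val π x)) ^ n • e x := by
      intro n x
      induction n with
      | zero => rw [pow_zero, pow_zero, one_smul, map_one]; rfl
      | succ n ih =>
        rw [pow_succ, map_mul, pow_succ, Module.End.mul_apply, he]
        change bcr ρ Ω (γ ^ n) ((jΩ (val π x)) • e x) = _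
        rw [map_smul, ih, smul_smul, mul_comm]
    simp only [h2] at h1
    rw [MultilinearMap.map_smul_univ, smul_eq_mul, map_pow, bcc_apply, hχ] at h1
    have h3 := mul_right_cancel₀ hI h1
    have h4 : jΩ (∏ l, (val π (I l)) ^ M) = jΩ (((p : L) ^ a) ^ (m * M)) := by
      simp only [map_prod, map_pow, map_natCast] at h3 ⊢
      rw [h3, ← pow_mul, ← pow_mul, ← pow_mul]
      congr 1
      ring
    exact jΩ.injective h4
  refine tate_descentG (Ω := Ω) b ρ χ ?_ φ hφ
  intro φ' hφ'
  refine tateG_mem e bar_bar bar_ne hjj hj0 (bcb Ω ω) hω (bcr ρ Ω) (bcc χ Ω)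
    (bcb_inv ρ χ ω hωρ) ?_ hbal φ' hφ'
  intro Δ hΔ U hU
  obtain ⟨P, hP1, hP2, hP3⟩ := exists_proj_baseChange (Ω := Ω) (ρ '' (Δ : Set Γ)) (hss Δ hΔ) U
    (by
      rintro _ ⟨s, hs, rfl⟩ u hu
      exact hU s hs u hu)
  exact ⟨P, hP1, hP2, fun s hs v => hP3 _ ⟨s, hs, rfl⟩ v⟩

end

end Pool.Agent.H204R3.GP
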