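import Mathlib

/-!
# Homomorphisms between the motives `h_1(A) ^ {⊗ s} (c)`

`V` is the rational Tate module `V_ℓ(A)` of an abelian variety `A` over a field `K`, `ρ` the action
of the Galois group `Γ` of `K`, `χ` the cyclotomic character and `ω` the Weil pairing of a
polarization.
-/

namespace Pool.Agent.H204R3.GP

open scoped TensorProduct

/-- The linear form `z_1 ⊗ ... ⊗ z_t ↦ ω(z_1, y_1) * ... * ω(z_t, y_t)` on `V ^ {⊗ t}`. -/
noncomputable def pairing {k V : Type*} [Field k] [AddCommGroup V] [Module k V]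
    (ω : V →ₗ[k] V →ₗ[k] k) {t : ℕ} (y : Fin t → V) : (⨂[k] _ : Fin t, V) →ₗ[k] k :=
  PiTensorProduct.lift
    ((MultilinearMap.mkPiAlgebra k (Fin t) k).compLinearMap (fun i => ω.flip (y i)))

/-- `f` is a homomorphism `V ^ {⊗ s} (c) → V ^ {⊗ t} (d)` for a subgroup of finite index of the
Galois group. -/
def IsTateHom {k V Γ : Type*} [Field k] [AddCommGroup V] [Module k V] [Group Γ]
    (ρ : Representation k Γ V) (χ : Γ →* k) (c d : ℕ) {s t : ℕ}
    (f : (⨂[k] _ : Fin s, V) →ₗ[k] (⨂[k] _ : Fin t, V)) : Prop :=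
  ∃ Δ : Subgroup Γ, Δ.FiniteIndex ∧ ∀ g ∈ Δ, ∀ x,
    f (χ g ^ c • PiTensorProduct.map (fun _ => ρ g) x) =
      χ g ^ d • PiTensorProduct.map (fun _ => ρ g) (f x)

/-- `B` is a Tate class in `H^1(A) ⊗ H^1(A) (1)`: a bilinear form on `V` with
`B(g x, g y) = χ(g) B(x, y)` for all `g` in a subgroup of finite index. -/
def IsTateForm {k V Γ : Type*} [Field k] [AddCommGroup V] [Module k V] [Group Γ]
    (ρ : Representation k Γ V) (χ : Γ →* k) (B : V →ₗ[k] V →ₗ[k] k) : Prop :=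
  ∃ Δ : Subgroup Γ, Δ.FiniteIndex ∧ ∀ g ∈ Δ, ∀ x y, B (ρ g x) (ρ g y) = χ g * B x y

/-- The linear map `f : V ^ {⊗ s} → V ^ {⊗ t}` is *elementary*: if `V ^ {⊗ t}` is identified with
its dual space by the pairing `ω`, it is the product of Tate classes `B l` of degree two, where the
`s + t = 2 m` factors are distributed in some way. -/
def IsElementary {k V Γ : Type*} [Field k] [AddCommGroup V] [Module k V] [Group Γ]
    (ρ : Representation k Γ V) (χ : Γ →* k) (ω : V →ₗ[k] V →ₗ[k] k) {s t : ℕ}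
    (f : (⨂[k] _ : Fin s, V) →ₗ[k] (⨂[k] _ : Fin t, V)) : Prop :=
  ∃ (m : ℕ) (e : Fin m × Fin 2 ≃ Fin s ⊕ Fin t) (B : Fin m → V →ₗ[k] V →ₗ[k] k),
    (∀ l, IsTateForm ρ χ (B l)) ∧ ∀ (x : Fin s → V) (y : Fin t → V),
      pairing ω y (f (PiTensorProduct.tprod k x)) =
        ∏ l, B l (Sum.elim x y (e (l, 0))) (Sum.elim x y (e (l, 1)))

/-- The Tate conjecture (in the strong form that all homomorphisms are generated by those of degree
two) for the homomorphisms between all pure motives of the form `h_1(A) ^ {⊗ s} (c)`. -/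
def HomsGeneratedInDegreeTwo {k V Γ : Type*} [Field k] [AddCommGroup V] [Module k V] [Group Γ]
    (ρ : Representation k Γ V) (χ : Γ →* k) (ω : V →ₗ[k] V →ₗ[k] k) : Prop :=
  ∀ s t c d : ℕ, s + 2 * c = t + 2 * d → ∀ f : (⨂[k] _ : Fin s, V) →ₗ[k] (⨂[k] _ : Fin t, V),
    IsTateHom ρ χ c d f → f ∈ Submodule.span k {f' | IsElementary ρ χ ω f'}

end Pool.Agent.H204R3.GP
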