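import Mathlib
import Pool.Agent.H86.CMLib.H204R3.GP.MTDefs
import Pool.Agent.H86.CMLib.H204R3.GP.Neat

/-!
# The Mumford-Tate conjecture from the generation in degree two
-/

set_option linter.unusedSectionVars false

namespace Pool.Agent.H204R3.GP

open Module

noncomputable section

variable {k V Γ : Type*} [Field k] [CharZero k] [AddCommGroup V] [Module k V]
  [FiniteDimensional k V] [Group Γ]
  {W T : Type*} [AddCommGroup W] [Module ℚ W] [AddCommGroup T] [Module ℂ T]

/-- The bilinear forms on `V` which come from Hodge classes. -/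
def HB (per : W →+ T) (comp : W →+ V) : Set (V →ₗ[k] V →ₗ[k] k) :=
  {B | ∃ B₀ : W →ₗ[ℚ] W →ₗ[ℚ] ℚ, IsHodgeBilinear per B₀ ∧
    ∀ x y, B (comp x) (comp y) = ((B₀ x y : ℚ) : k)}

theorem tate2_mem (per : W →+ T) (comp : W →+ V) (ρ : Representation k Γ V) (χ : Γ →* k)
    (ω : V →ₗ[k] V →ₗ[k] k) (hnd' : ∀ u, (∀ v, ω u v = 0) → u = 0)
    (hωρ : ∀ s u v, ω (ρ s u) (ρ s v) = χ s * ω u v)
    (ω₀ : W →ₗ[ℚ] W →ₗ[ℚ] ℚ) (hω₀ : IsHodgeBilinear per ω₀)
    (hωω : ∀ x y, ω (comp x) (comp y) = ((ω₀ x y : ℚ) : k))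
    (hF : FaltingsEnd per comp ρ) (B : V →ₗ[k] V →ₗ[k] k) (hB : IsTate2 ρ χ B) :
    B ∈ Submodule.span k (HB (k := k) per comp) := by
  classical
  have hinj : Function.Injective ω := by
    rw [injective_iff_map_eq_zero]
    intro u hu
    exact hnd' u fun v => by rw [hu]; rfl
  let eqv : V ≃ₗ[k] (V →ₗ[k] k) := LinearMap.linearEquivOfInjective ω hinj
    (Subspace.dual_finrank_eq (K := k) (V := V)).symm
  have heqv : ∀ u, eqv u = ω u := fun u => rfl
  let P : Module.End k V := eqv.symm.toLinearMap ∘ₗ B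
  have hP : ∀ x y, ω (P x) y = B x y := by
    intro x y
    have h1 : eqv (P x) = B x := eqv.apply_symm_apply (B x)
    rw [← heqv, h1]
  obtain ⟨Δ, hΔ, hB⟩ := hB
  have hPc : ∀ s ∈ Δ, ∀ v, P (ρ s v) = ρ s (P v) := by
    intro s hs v
    apply hinj
    ext y
    obtain ⟨y', rfl⟩ : ∃ y', ρ s y' = y := ⟨ρ s⁻¹ y, by
      change (ρ s * ρ s⁻¹) y = y
      rw [← map_mul, mul_inv_cancel, map_one]
      rfl⟩
    rw [hP, hB s hs, hωρ, hP]
  have h1 := hF P ⟨Δ, hΔ, hPc⟩
  have h2 : ∀ P' ∈ Submodule.span k {P' : Module.End k V | ∃ P₀ : W →ₗ[ℚ] W, IsHodgeEnd per P₀ ∧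
      ∀ w, P' (comp w) = comp (P₀ w)}, ω ∘ₗ P' ∈ Submodule.span k (HB (k := k) per comp) := by
    intro P' hP'
    induction hP' using Submodule.span_induction with
    | mem P' hP' =>
      obtain ⟨P₀, ⟨P₁, hP₁⟩, hP₀⟩ := hP'
      apply Submodule.subset_span
      obtain ⟨E, hE1, hE2⟩ := hω₀
      refine ⟨ω₀ ∘ₗ P₀, ⟨E ∘ₗ P₁.restrictScalars ℝ, ?_, ?_⟩, ?_⟩
      · intro x y
        rw [LinearMap.comp_apply, LinearMap.coe_restrictScalars, hP₁, hE1]
        rfl
      · intro z hz u v
        rw [LinearMap.comp_apply, LinearMap.comp_apply, LinearMap.coe_restrictScalars,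
          LinearMap.map_smul P₁, hE2 z hz]
      · intro x y
        rw [LinearMap.comp_apply, hP₀, hωω]
        rfl
    | zero =>
      rw [LinearMap.comp_zero]
      exact Submodule.zero_mem _
    | add P Q _ _ hP hQ =>
      rw [LinearMap.comp_add]
      exact Submodule.add_mem _ hP hQ
    | smul c P _ hP =>
      rw [LinearMap.comp_smul]
      exact Submodule.smul_mem _ _ hP
  have h3 : B = ω ∘ₗ P := by
    ext x y
    rw [LinearMap.comp_apply, hP]
  rw [h3]
  exact h2 P h1

theorem mmG_update_add {m : ℕ} (σ : Equiv.Perm (Fin m × Fin 2))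
    (B : Fin m → (V →ₗ[k] V →ₗ[k] k)) (i : Fin m) (x y : V →ₗ[k] V →ₗ[k] k) :
    mmG σ (Function.update B i (x + y)) =
      mmG σ (Function.update B i x) + mmG σ (Function.update B i y) := by
  classical
  ext v
  rw [_root_.add_apply, mmG_apply, mmG_apply, mmG_apply, ← Finset.mul_prod_erase _ _ (Finset.mem_univ i),
    ← Finset.mul_prod_erase _ _ (Finset.mem_univ i), ← Finset.mul_prod_erase _ _ (Finset.mem_univ i)]
  simp only [Function.update_self, LinearMap.add_apply, add_mul]
  congr 1 <;>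
  · congr 1
    refine Finset.prod_congr rfl fun l hl => ?_
    rw [Function.update_of_ne (Finset.ne_of_mem_erase hl),
      Function.update_of_ne (Finset.ne_of_mem_erase hl)]

theorem mmG_update_smul {m : ℕ} (σ : Equiv.Perm (Fin m × Fin 2))
    (B : Fin m → (V →ₗ[k] V →ₗ[k] k)) (i : Fin m) (c : k) (x : V →ₗ[k] V →ₗ[k] k) :
    mmG σ (Function.update B i (c • x)) = c • mmG σ (Function.update B i x) := by
  classical
  ext v
  rw [_root_.smul_apply, mmG_apply, mmG_apply, ← Finset.mul_prod_erase _ _ (Finset.mem_univ i),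
    ← Finset.mul_prod_erase _ _ (Finset.mem_univ i)]
  simp only [Function.update_self, LinearMap.smul_apply, smul_eq_mul, mul_assoc]
  congr 2
  refine Finset.prod_congr rfl fun l hl => ?_
  rw [Function.update_of_ne (Finset.ne_of_mem_erase hl),
    Function.update_of_ne (Finset.ne_of_mem_erase hl)]

theorem mmG_mem_span {m : ℕ} (σ : Equiv.Perm (Fin m × Fin 2)) (S : Set (V →ₗ[k] V →ₗ[k] k))
    (B : Fin m → (V →ₗ[k] V →ₗ[k] k)) (hB : ∀ l, B l ∈ Submodule.span k S) :
    mmG σ B ∈ Submodule.span k {φ | ∃ B' : Fin m → (V →ₗ[k] V →ₗ[k] k), (∀ l, B' l ∈ S) ∧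
      φ = mmG σ B'} := by
  classical
  have key : ∀ (s : Finset (Fin m)) (B : Fin m → (V →ₗ[k] V →ₗ[k] k)),
      (∀ l ∈ s, B l ∈ Submodule.span k S) → (∀ l ∉ s, B l ∈ S) →
      mmG σ B ∈ Submodule.span k {φ | ∃ B' : Fin m → (V →ₗ[k] V →ₗ[k] k), (∀ l, B' l ∈ S) ∧
        φ = mmG σ B'} := by
    intro s
    induction s using Finset.induction_on with
    | empty =>
      intro B _ h2
      exact Submodule.subset_span ⟨B, fun l => h2 l (Finset.notMem_empty l), rfl⟩
    | insert i s hi ih =>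
      intro B h1 h2
      have h3 : ∀ x ∈ Submodule.span k S, mmG σ (Function.update B i x) ∈
          Submodule.span k {φ | ∃ B' : Fin m → (V →ₗ[k] V →ₗ[k] k), (∀ l, B' l ∈ S) ∧
            φ = mmG σ B'} := by
        intro x hx
        induction hx using Submodule.span_induction with
        | mem x hx =>
          apply ih
          · intro l hl
            have hli : l ≠ i := by
              rintro rfl
              exact hi hl
            rw [Function.update_of_ne hli]
            exact h1 l (Finset.mem_insert_of_mem hl)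
          · intro l hl
            by_cases h : l = i
            · rw [h, Function.update_self]
              exact hx
            · rw [Function.update_of_ne h]
              exact h2 l (by rw [Finset.mem_insert, not_or]; exact ⟨h, hl⟩)
        | zero =>
          have h4 := mmG_update_smul σ B i 0 0
          rw [zero_smul, zero_smul] at h4
          rw [h4]
          exact Submodule.zero_mem _
        | add x y _ _ hx hy =>
          rw [mmG_update_add]
          exact Submodule.add_mem _ hx hy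
        | smul c x _ hx =>
          rw [mmG_update_smul]
          exact Submodule.smul_mem _ _ hx
      have h4 := h3 (B i) (h1 i (Finset.mem_insert_self i s))
      rwa [Function.update_eq_self] at h4
  exact key Finset.univ B (fun l _ => hB l) (fun l hl => absurd (Finset.mem_univ l) hl)

theorem mm_good {m : ℕ} (per : W →+ T) (comp : W →+ V) (σ : Equiv.Perm (Fin m × Fin 2))
    (B : Fin m → (V →ₗ[k] V →ₗ[k] k)) (hB : ∀ l, B l ∈ HB (k := k) per comp) :
    ∃ ψ : MultilinearMap ℚ (fun _ : Fin m × Fin 2 => W) ℚ, IsHodgeTensor per ψ ∧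
      IsProductOfHodgeBilinear per ψ ∧ Compares comp (mmG σ B) ψ := by
  classical
  choose B₀ hB₀ hBB using hB
  choose E hE1 hE2 using hB₀
  refine ⟨mmG σ B₀, ⟨mmG σ E, ?_, ?_⟩, ⟨σ, B₀, fun l => ⟨E l, hE1 l, hE2 l⟩, fun v => rfl⟩, ?_⟩
  · intro v
    rw [mmG_apply, mmG_apply]
    push_cast
    exact Finset.prod_congr rfl fun l _ => hE1 l _ _
  · intro z hz u
    rw [mmG_apply, mmG_apply]
    exact Finset.prod_congr rfl fun l _ => hE2 l z hz _ _
  · intro v
    rw [mmG_apply, mmG_apply]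
    push_cast
    exact Finset.prod_congr rfl fun l _ => hBB l _ _

/-- The Mumford-Tate conjecture, if all Tate forms are generated in degree two. -/
theorem mumfordTate_of (per : W →+ T) (comp : W →+ V) (ρ : Representation k Γ V) (χ : Γ →* k)
    (ω : V →ₗ[k] V →ₗ[k] k) (hnd' : ∀ u, (∀ v, ω u v = 0) → u = 0)
    (hωρ : ∀ s u v, ω (ρ s u) (ρ s v) = χ s * ω u v)
    (ω₀ : W →ₗ[ℚ] W →ₗ[ℚ] ℚ) (hω₀ : IsHodgeBilinear per ω₀)
    (hωω : ∀ x y, ω (comp x) (comp y) = ((ω₀ x y : ℚ) : k))
    (hF : FaltingsEnd per comp ρ)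
    (H : ∀ (m : ℕ) (φ : MultilinearMap k (fun _ : Fin m × Fin 2 => V) k),
      Pool.Agent.H204R3.SP.IsTate ρ χ m φ → φ ∈ Submodule.span k (PT ρ χ m)) :
    MumfordTateStrong per comp ρ χ := by
  intro m φ hφ
  have h1 := H m φ hφ
  refine Submodule.span_le.2 ?_ h1
  rintro _ ⟨σ, B, hB, rfl⟩
  have h2 := mmG_mem_span σ (HB (k := k) per comp) B
    (fun l => tate2_mem per comp ρ χ ω hnd' hωρ ω₀ hω₀ hωω hF (B l) (hB l))
  refine Submodule.span_mono ?_ h2
  rintro _ ⟨B', hB', rfl⟩
  exact mm_good per comp σ B' hB'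

end

end Pool.Agent.H204R3.GP
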